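import Mathlib

/-!
# Lattice points in discs: certificates

`enc x y s` is the set of the lattice points whose squared distance from `(x, y)` is less than `s`.
-/

set_option autoImplicit false

namespace Pool.Agent.X161.MC

/-- The squared distance of the lattice point `p` from `(x, y)`. -/
def sd (x y : ℝ) (p : ℤ × ℤ) : ℝ := ((p.1 : ℝ) - x) ^ 2 + ((p.2 : ℝ) - y) ^ 2

/-- The lattice points in the open disc with centre `(x, y)` and squared radius `s`. -/
def enc (x y s : ℝ) : Set (ℤ × ℤ) := {p | sd x y p < s}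

lemma enc_finite (x y s : ℝ) : (enc x y s).Finite := by
  have hsub : enc x y s ⊆ (Set.Icc (-(⌈|x| + |y| + |s| + 1⌉)) ⌈|x| + |y| + |s| + 1⌉) ×ˢ
      (Set.Icc (-(⌈|x| + |y| + |s| + 1⌉)) ⌈|x| + |y| + |s| + 1⌉) := by
    rintro ⟨a, b⟩ h
    have h' : ((a : ℝ) - x) ^ 2 + ((b : ℝ) - y) ^ 2 < s := h
    have hB := Int.le_ceil (|x| + |y| + |s| + 1)
    set B := ⌈|x| + |y| + |s| + 1⌉
    have hs : s ≤ |s| := le_abs_self s
    have key : ∀ u v w : ℝ, (u - v) ^ 2 < |s| → |u| ≤ |v| + |s| + 1 := by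
      intro u v w huv
      have h1 : |u - v| ≤ |s| + 1 := by
        rw [abs_le]
        have := abs_nonneg s
        constructor <;> nlinarith
      have h2 : |u| ≤ |u - v| + |v| := by
        have := abs_add_le (u - v) v
        simpa using this
      linarith
    have ha := key a x 0 (by nlinarith [sq_nonneg ((b : ℝ) - y)])
    have hb := key b y 0 (by nlinarith [sq_nonneg ((a : ℝ) - x)])
    have hx := abs_nonneg x
    have hy := abs_nonneg y
    have ha' : |(a : ℝ)| ≤ B := by linarith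
    have hb' : |(b : ℝ)| ≤ B := by linarith
    rw [abs_le] at ha' hb'
    simp only [Set.mem_prod, Set.mem_Icc]
    exact ⟨⟨by exact_mod_cast ha'.1, by exact_mod_cast ha'.2⟩,
      ⟨by exact_mod_cast hb'.1, by exact_mod_cast hb'.2⟩⟩
  exact ((Set.finite_Icc _ _).prod (Set.finite_Icc _ _)).subset hsub

/-- The number of the lattice points in the disc. -/
noncomputable def cnt (x y s : ℝ) : ℕ := (enc x y s).ncard

lemma cnt_mono {x y s s' : ℝ} (h : s ≤ s') : cnt x y s ≤ cnt x y s' :=
  Set.ncard_le_ncard (fun _ hp => lt_of_lt_of_le hp h) (enc_finite _ _ _)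

/-! ### Symmetries -/

lemma cnt_eq_of_equiv (e : ℤ × ℤ ≃ ℤ × ℤ) {x y x' y' : ℝ}
    (h : ∀ p, sd x' y' (e p) = sd x y p) (s : ℝ) : cnt x y s = cnt x' y' s := by
  unfold cnt
  have : enc x' y' s = e '' enc x y s := by
    ext q
    constructor
    · intro hq
      refine ⟨e.symm q, ?_, e.apply_symm_apply q⟩
      change sd x y (e.symm q) < s
      rw [← h, e.apply_symm_apply]
      exact hq
    · rintro ⟨p, hp, rfl⟩
      change sd x' y' (e p) < s
      rw [h]
      exact hp
  rw [this, Set.ncard_image_of_injective _ e.injective]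

lemma cnt_shift (x y s : ℝ) (a b : ℤ) : cnt x y s = cnt (x + a) (y + b) s := by
  refine cnt_eq_of_equiv (Equiv.prodCongr (Equiv.addRight a) (Equiv.addRight b)) ?_ s
  rintro ⟨p, q⟩
  simp [sd]

lemma cnt_neg_left (x y s : ℝ) : cnt x y s = cnt (-x) y s := by
  refine cnt_eq_of_equiv (Equiv.prodCongr (Equiv.neg ℤ) (Equiv.refl ℤ)) ?_ s
  rintro ⟨p, q⟩
  simp [sd]
  ring

lemma cnt_neg_right (x y s : ℝ) : cnt x y s = cnt x (-y) s := by
  refine cnt_eq_of_equiv (Equiv.prodCongr (Equiv.refl ℤ) (Equiv.neg ℤ)) ?_ s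
  rintro ⟨p, q⟩
  simp [sd]
  ring

lemma cnt_swap (x y s : ℝ) : cnt x y s = cnt y x s := by
  refine cnt_eq_of_equiv (Equiv.prodComm ℤ ℤ) ?_ s
  rintro ⟨p, q⟩
  simp [sd]
  ring

/-- Reduction of one coordinate. -/
lemma red (x : ℝ) : ∃ (x' : ℝ) (a : ℤ), 0 ≤ x' ∧ x' ≤ 1 / 2 ∧ (x' = x + a ∨ x' = -(x + a)) := by
  refine ⟨|x - round x|, -round x, abs_nonneg _, abs_sub_round x, ?_⟩
  push_cast
  rw [← sub_eq_add_neg]
  exact abs_choice _

lemma exists_red (x y : ℝ) : ∃ x' y' : ℝ, 0 ≤ x' ∧ x' ≤ 1 / 2 ∧ 0 ≤ y' ∧ y' ≤ 1 / 2 ∧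
    ∀ s, cnt x y s = cnt x' y' s := by
  obtain ⟨x', a, h1, h2, h3⟩ := red x
  obtain ⟨y', b, h4, h5, h6⟩ := red y
  refine ⟨x', y', h1, h2, h4, h5, fun s => ?_⟩
  rw [cnt_shift x y s a b]
  rcases h3 with rfl | rfl <;> rcases h6 with rfl | rfl
  · rfl
  · exact cnt_neg_right _ _ _
  · exact cnt_neg_left _ _ _
  · rw [cnt_neg_left, cnt_neg_right]

/-! ### The four quadrants -/

/-- The pairs of natural numbers `q` with `(q.1 + α)² + (q.2 + β)² < s`. -/
def quad (α β s : ℝ) : Set (ℕ × ℕ) := {q | ((q.1 : ℝ) + α) ^ 2 + ((q.2 : ℝ) + β) ^ 2 < s}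

/-- The four maps. -/
def mp (u v : Bool) (q : ℕ × ℕ) : ℤ × ℤ :=
  (if u then (q.1 : ℤ) + 1 else -(q.1 : ℤ), if v then (q.2 : ℤ) + 1 else -(q.2 : ℤ))

lemma mp_inj (u v : Bool) : Function.Injective (mp u v) := by
  rintro ⟨a, b⟩ ⟨c, d⟩ h
  cases u <;> cases v <;> simp [mp] at h ⊢ <;> omega

/-- The offset in a quadrant. -/
def off (u : Bool) (x : ℝ) : ℝ := if u then 1 - x else x

lemma sd_mp (u v : Bool) (x y : ℝ) (q : ℕ × ℕ) :
    sd x y (mp u v q) = ((q.1 : ℝ) + off u x) ^ 2 + ((q.2 : ℝ) + off v y) ^ 2 := by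
  cases u <;> cases v <;> simp [sd, mp, off] <;> ring

lemma preimage_mp (u v : Bool) (x y s : ℝ) :
    mp u v ⁻¹' enc x y s = quad (off u x) (off v y) s := by
  ext q
  simp only [Set.mem_preimage, enc, Set.mem_ofPred_eq, sd_mp, quad]

lemma quad_finite (u v : Bool) (x y s : ℝ) : (quad (off u x) (off v y) s).Finite := by
  rw [← preimage_mp]
  exact (enc_finite x y s).preimage (mp_inj u v).injOn

lemma enc_eq (x y s : ℝ) : enc x y s =
    ((mp true true '' quad (off true x) (off true y) s) ∪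
      (mp false true '' quad (off false x) (off true y) s)) ∪
    ((mp true false '' quad (off true x) (off false y) s) ∪
      (mp false false '' quad (off false x) (off false y) s)) := by
  ext ⟨a, b⟩
  simp only [← preimage_mp]
  constructor
  · intro h
    by_cases ha : 0 < a <;> by_cases hb : 0 < b
    · left; left
      refine ⟨((a - 1).toNat, (b - 1).toNat), ?_, ?_⟩
      · have : mp true true ((a - 1).toNat, (b - 1).toNat) = (a, b) := by
          simp [mp]; omega
        rw [Set.mem_preimage, this]; exact h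
      · simp [mp]; omega
    · right; left
      refine ⟨((a - 1).toNat, (-b).toNat), ?_, ?_⟩
      · have : mp true false ((a - 1).toNat, (-b).toNat) = (a, b) := by
          simp [mp]; omega
        rw [Set.mem_preimage, this]; exact h
      · simp [mp]; omega
    · left; right
      refine ⟨((-a).toNat, (b - 1).toNat), ?_, ?_⟩
      · have : mp false true ((-a).toNat, (b - 1).toNat) = (a, b) := by
          simp [mp]; omega
        rw [Set.mem_preimage, this]; exact h
      · simp [mp]; omega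
    · right; right
      refine ⟨((-a).toNat, (-b).toNat), ?_, ?_⟩
      · have : mp false false ((-a).toNat, (-b).toNat) = (a, b) := by
          simp [mp]; omega
        rw [Set.mem_preimage, this]; exact h
      · simp [mp]; omega
  · rintro ((⟨q, hq, he⟩ | ⟨q, hq, he⟩) | (⟨q, hq, he⟩ | ⟨q, hq, he⟩)) <;>
      (rw [← he]; exact hq)

lemma cnt_eq (x y s : ℝ) : cnt x y s =
    ((quad (off true x) (off true y) s).ncard + (quad (off false x) (off true y) s).ncard) +
    ((quad (off true x) (off false y) s).ncard + (quad (off false x) (off false y) s).ncard) := by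
  unfold cnt
  rw [enc_eq]
  have f := fun u v => (quad_finite u v x y s).image (mp u v)
  rw [Set.ncard_union_eq _ ((f _ _).union (f _ _)) ((f _ _).union (f _ _)),
    Set.ncard_union_eq _ (f _ _) (f _ _), Set.ncard_union_eq _ (f _ _) (f _ _),
    Set.ncard_image_of_injective _ (mp_inj _ _), Set.ncard_image_of_injective _ (mp_inj _ _),
    Set.ncard_image_of_injective _ (mp_inj _ _), Set.ncard_image_of_injective _ (mp_inj _ _)]
  all_goals
    rw [Set.disjoint_left]
    simp only [Set.mem_union, Set.mem_image, not_or, not_exists, not_and]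
  · rintro p ⟨q, hq, rfl⟩ q' hq' h
    simp [mp] at h
    omega
  · rintro p ⟨q, hq, rfl⟩ q' hq' h
    simp [mp] at h
    omega
  · rintro p (⟨q, hq, rfl⟩ | ⟨q, hq, rfl⟩)
    · refine ⟨fun q' hq' h => ?_, fun q' hq' h => ?_⟩ <;> simp [mp] at h <;> omega
    · refine ⟨fun q' hq' h => ?_, fun q' hq' h => ?_⟩ <;> simp [mp] at h <;> omega

/-! ### Walking along the boundary -/

/-- The pairs of natural numbers with `(i M + A)² + (j M + B)² < S`. -/
def nquad (M A B S : ℕ) : Set (ℕ × ℕ) := {q | (q.1 * M + A) ^ 2 + (q.2 * M + B) ^ 2 < S}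

/-- Counts the elements of `nquad M A B S`, starting with the column `i` and the height `j`. -/
def walk (M A B S : ℕ) : ℕ → ℕ → ℕ → ℕ → ℕ
  | 0, _, _, acc => acc
  | f + 1, i, j, acc =>
    match j with
    | 0 => acc
    | j' + 1 => bif Nat.blt ((i * M + A) * (i * M + A) + (j' * M + B) * (j' * M + B)) S then
        walk M A B S f (i + 1) (j' + 1) (acc + (j' + 1))
      else walk M A B S f i j' acc

lemma nquad_finite {M A B S : ℕ} (hM : 0 < M) : (nquad M A B S).Finite := by
  apply ((Set.finite_Iio S).prod (Set.finite_Iio S)).subset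
  rintro ⟨a, b⟩ h
  have h' : (a * M + A) ^ 2 + (b * M + B) ^ 2 < S := h
  have ha : a ≤ (a * M + A) ^ 2 := by nlinarith [Nat.le_mul_of_pos_right a hM, Nat.zero_le A]
  have hb : b ≤ (b * M + B) ^ 2 := by nlinarith [Nat.le_mul_of_pos_right b hM, Nat.zero_le B]
  simp only [Set.mem_prod, Set.mem_Iio]
  omega

lemma walk_le {M A B S : ℕ} (hM : 0 < M) (f : ℕ) : ∀ i j acc : ℕ,
    walk M A B S f i j acc ≤ acc + (nquad M A B S ∩ {q | i ≤ q.1}).ncard := by
  induction f with
  | zero => intro i j acc; simp [walk]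
  | succ f ih =>
    intro i j acc
    cases j with
    | zero => simp [walk]
    | succ j' =>
      rw [walk]
      cases hb : Nat.blt ((i * M + A) * (i * M + A) + (j' * M + B) * (j' * M + B)) S with
      | false => exact ih i j' acc
      | true =>
        refine (ih (i + 1) (j' + 1) (acc + (j' + 1))).trans ?_
        have hlt : (i * M + A) * (i * M + A) + (j' * M + B) * (j' * M + B) < S := by
          simpa [Nat.blt_eq] using hb
        have hfin : (nquad M A B S ∩ {q | i ≤ q.1}).Finite :=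
          (nquad_finite hM).subset Set.inter_subset_left
        have hcol : ((fun j : ℕ => (i, j)) '' Set.Iio (j' + 1)).ncard = j' + 1 := by
          rw [Set.ncard_image_of_injective _ (fun a b h => (Prod.mk.inj h).2), ← Finset.coe_Iio,
            Set.ncard_coe_finset, Nat.card_Iio]
        have hsub : ((fun j : ℕ => (i, j)) '' Set.Iio (j' + 1)) ∪
            (nquad M A B S ∩ {q | i + 1 ≤ q.1}) ⊆ nquad M A B S ∩ {q | i ≤ q.1} := by
          rintro q (⟨j, hj, rfl⟩ | ⟨h1, h2⟩)
          · refine ⟨?_, le_refl i⟩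
            change (i * M + A) ^ 2 + (j * M + B) ^ 2 < S
            have hj' : j ≤ j' := Nat.lt_succ_iff.1 hj
            have : j * M + B ≤ j' * M + B := by nlinarith
            have h9 : (j * M + B) * (j * M + B) ≤ (j' * M + B) * (j' * M + B) :=
              Nat.mul_le_mul this this
            rw [pow_two, pow_two]
            omega
          · exact ⟨h1, le_trans (Nat.le_succ i) h2⟩
        have hdis : Disjoint ((fun j : ℕ => (i, j)) '' Set.Iio (j' + 1))
            (nquad M A B S ∩ {q | i + 1 ≤ q.1}) := by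
          rw [Set.disjoint_left]
          rintro q ⟨j, hj, rfl⟩ ⟨_, h2⟩
          have : i + 1 ≤ i := h2
          omega
        have h1 := Set.ncard_le_ncard hsub hfin
        rw [Set.ncard_union_eq hdis ((Set.finite_Iio _).image _)
          ((nquad_finite hM).subset Set.inter_subset_left), hcol] at h1
        omega

lemma walk_le' {M A B S : ℕ} (hM : 0 < M) (f j : ℕ) :
    walk M A B S f 0 j 0 ≤ (nquad M A B S).ncard := by
  have := walk_le (A := A) (B := B) (S := S) hM f 0 j 0
  refine this.trans ?_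
  rw [zero_add]
  exact Set.ncard_le_ncard Set.inter_subset_left (nquad_finite hM)

lemma nquad_subset {M A B S : ℕ} (hM : 0 < M) {α β : ℝ} (hα : 0 ≤ α) (hβ : 0 ≤ β)
    (hA : α * M ≤ A) (hB : β * M ≤ B) : nquad M A B S ⊆ quad α β (S / M ^ 2) := by
  rintro ⟨a, b⟩ h
  have h' : (a * M + A) ^ 2 + (b * M + B) ^ 2 < S := h
  have h2 : ((a : ℝ) * M + A) ^ 2 + ((b : ℝ) * M + B) ^ 2 < S := by exact_mod_cast h'
  have hM' : (0 : ℝ) < M := by exact_mod_cast hM
  change ((a : ℝ) + α) ^ 2 + ((b : ℝ) + β) ^ 2 < S / M ^ 2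
  rw [lt_div_iff₀ (by positivity)]
  have ha : (0 : ℝ) ≤ a := Nat.cast_nonneg a
  have hb : (0 : ℝ) ≤ b := Nat.cast_nonneg b
  have e : (((a : ℝ) + α) ^ 2 + ((b : ℝ) + β) ^ 2) * M ^ 2 =
      (a * M + α * M) ^ 2 + (b * M + β * M) ^ 2 := by ring
  rw [e]
  have h3 : ((a : ℝ) * M + α * M) ^ 2 ≤ ((a : ℝ) * M + A) ^ 2 := by
    apply pow_le_pow_left₀ (by positivity)
    linarith
  have h4 : ((b : ℝ) * M + β * M) ^ 2 ≤ ((b : ℝ) * M + B) ^ 2 := by
    apply pow_le_pow_left₀ (by positivity)
    linarith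
  linarith

end Pool.Agent.X161.MC
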