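import Pool.Agent.X161.MC.Basic

/-!
# Certificates by subdivision
-/

set_option autoImplicit false

namespace Pool.Agent.X161.MC

/-- A lower bound for the number of the lattice points in the discs with squared radius `S / M²` and
centre in the box `[a, a'] × [b, b']` (in units `1 / M`). -/
def boxCount (M S J a a' b b' : ℕ) : ℕ :=
  (walk M (M - a) (M - b) S (3 * J) 0 J 0 + walk M a' (M - b) S (3 * J) 0 J 0) +
  (walk M (M - a) b' S (3 * J) 0 J 0 + walk M a' b' S (3 * J) 0 J 0)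

/-- The lattice points in all discs with centre in the box. -/
def core (M S a a' b b' : ℕ) : Set (ℤ × ℤ) :=
  ((mp true true '' nquad M (M - a) (M - b) S) ∪ (mp false true '' nquad M a' (M - b) S)) ∪
    ((mp true false '' nquad M (M - a) b' S) ∪ (mp false false '' nquad M a' b' S))

lemma core_subset {M S a a' b b' : ℕ} (hM : 0 < M) (ha : a ≤ M) (hb : b ≤ M) {x y : ℝ}
    (h1 : a ≤ x * M) (h2 : x * M ≤ a') (h3 : b ≤ y * M) (h4 : y * M ≤ b') (hx : 0 ≤ x) (hy : 0 ≤ y)
    (hx1 : x ≤ 1) (hy1 : y ≤ 1) :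
    core M S a a' b b' ⊆ enc x y (S / M ^ 2) := by
  have ca : ((M - a : ℕ) : ℝ) = M - a := Nat.cast_sub ha
  have cb : ((M - b : ℕ) : ℝ) = M - b := Nat.cast_sub hb
  rw [enc_eq]
  refine Set.union_subset_union (Set.union_subset_union ?_ ?_) (Set.union_subset_union ?_ ?_) <;>
    apply Set.image_mono <;> apply nquad_subset hM <;> simp only [off, ca, cb, if_true,
      Bool.false_eq_true, if_false] <;> linarith

lemma core_ncard {M S a a' b b' : ℕ} (hM : 0 < M) (J : ℕ) :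
    boxCount M S J a a' b b' ≤ (core M S a a' b b').ncard := by
  unfold core boxCount
  have f : ∀ u v A B, (mp u v '' nquad M A B S).Finite := fun u v A B =>
    (nquad_finite hM).image _
  rw [Set.ncard_union_eq _ ((f _ _ _ _).union (f _ _ _ _)) ((f _ _ _ _).union (f _ _ _ _)),
    Set.ncard_union_eq _ (f _ _ _ _) (f _ _ _ _), Set.ncard_union_eq _ (f _ _ _ _) (f _ _ _ _),
    Set.ncard_image_of_injective _ (mp_inj _ _), Set.ncard_image_of_injective _ (mp_inj _ _),
    Set.ncard_image_of_injective _ (mp_inj _ _), Set.ncard_image_of_injective _ (mp_inj _ _)]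
  · exact Nat.add_le_add (Nat.add_le_add (walk_le' hM _ _) (walk_le' hM _ _))
      (Nat.add_le_add (walk_le' hM _ _) (walk_le' hM _ _))
  all_goals
    rw [Set.disjoint_left]
    simp only [Set.mem_union, Set.mem_image, not_or, not_exists, not_and]
  · rintro p ⟨q, hq, rfl⟩ q' hq' h
    simp [mp] at h
    omega
  · rintro p ⟨q, hq, rfl⟩ q' hq' h
    simp [mp] at h
    omega
  · rintro p (⟨q, hq, rfl⟩ | ⟨q, hq, rfl⟩)
    · refine ⟨fun q' hq' h => ?_, fun q' hq' h => ?_⟩ <;> simp [mp] at h <;> omega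
    · refine ⟨fun q' hq' h => ?_, fun q' hq' h => ?_⟩ <;> simp [mp] at h <;> omega

/-- The subdivision: all boxes are in the region `nb` or have a box count at least `K`. -/
def chk (M S J K : ℕ) (nb : ℕ → ℕ → ℕ → Bool) : ℕ → ℕ → ℕ → ℕ → Bool
  | 0, _, _, _ => false
  | d + 1, a, b, h =>
    nb a b h || Nat.ble K (boxCount M S J a (a + h) b (b + h)) ||
    (Nat.beq h (h / 2 + h / 2) && chk M S J K nb d a b (h / 2) &&
      chk M S J K nb d (a + h / 2) b (h / 2) &&
      chk M S J K nb d a (b + h / 2) (h / 2) && chk M S J K nb d (a + h / 2) (b + h / 2) (h / 2))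

lemma chk_sound {M S J K : ℕ} (hM : 0 < M) {nb : ℕ → ℕ → ℕ → Bool} (d : ℕ) : ∀ a b h : ℕ,
    a + h ≤ M → b + h ≤ M → chk M S J K nb d a b h = true → ∀ x y : ℝ,
      a ≤ x * M → x * M ≤ (a + h : ℕ) → b ≤ y * M → y * M ≤ (b + h : ℕ) →
      K ≤ cnt x y (S / M ^ 2) ∨ ∃ a' b' h' : ℕ, nb a' b' h' = true ∧
        a' ≤ x * M ∧ x * M ≤ (a' + h' : ℕ) ∧ b' ≤ y * M ∧ y * M ≤ (b' + h' : ℕ) := by
  induction d with
  | zero => intro a b h _ _ hc; simp [chk] at hc
  | succ d ih =>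
    intro a b h ha hb hc x y h1 h2 h3 h4
    rw [chk] at hc
    simp only [Bool.or_eq_true, Bool.and_eq_true, Nat.ble_eq, Nat.beq_eq] at hc
    rcases hc with (hc | hc) | ⟨⟨⟨⟨he, c1⟩, c2⟩, c3⟩, c4⟩
    · exact Or.inr ⟨a, b, h, hc, h1, h2, h3, h4⟩
    · left
      have hM' : (0 : ℝ) < M := by exact_mod_cast hM
      have ha0 : (0 : ℝ) ≤ a := Nat.cast_nonneg a
      have hb0 : (0 : ℝ) ≤ b := Nat.cast_nonneg b
      have haM : ((a + h : ℕ) : ℝ) ≤ M := by exact_mod_cast ha
      have hbM : ((b + h : ℕ) : ℝ) ≤ M := by exact_mod_cast hb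
      have hx : 0 ≤ x := by
        by_contra hh
        nlinarith
      have hy : 0 ≤ y := by
        by_contra hh
        nlinarith
      have hx1 : x ≤ 1 := by
        by_contra hh
        nlinarith
      have hy1 : y ≤ 1 := by
        by_contra hh
        nlinarith
      refine hc.trans ((core_ncard hM J).trans ?_)
      exact Set.ncard_le_ncard (core_subset hM (by omega) (by omega) h1 h2 h3 h4 hx hy hx1 hy1)
        (enc_finite _ _ _)
    · have e : ((h : ℕ) : ℝ) = (h / 2 : ℕ) + (h / 2 : ℕ) := by exact_mod_cast he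
      rcases le_total (x * M) ((a + h / 2 : ℕ) : ℝ) with hx | hx <;>
        rcases le_total (y * M) ((b + h / 2 : ℕ) : ℝ) with hy | hy
      · exact ih a b (h / 2) (by omega) (by omega) c1 x y h1 hx h3 hy
      · refine ih a (b + h / 2) (h / 2) (by omega) (by omega) c3 x y h1 hx hy ?_
        push_cast at h4 ⊢
        linarith
      · refine ih (a + h / 2) b (h / 2) (by omega) (by omega) c2 x y hx ?_ h3 hy
        push_cast at h2 ⊢
        linarith
      · refine ih (a + h / 2) (b + h / 2) (h / 2) (by omega) (by omega) c4 x y hx ?_ hy ?_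
        · push_cast at h2 ⊢
          linarith
        · push_cast at h4 ⊢
          linarith

/-- The box of half size `d` around `(X, Y)`. -/
def near (X Y d : ℕ) (a b h : ℕ) : Bool :=
  Nat.ble X (a + d) && Nat.ble (a + h) (X + d) && Nat.ble Y (b + d) && Nat.ble (b + h) (Y + d)

lemma near_spec {M X Y d a b h : ℕ} {x y : ℝ} (hn : near X Y d a b h = true)
    (h1 : a ≤ x * M) (h2 : x * M ≤ (a + h : ℕ)) (h3 : b ≤ y * M) (h4 : y * M ≤ (b + h : ℕ)) :
    (X : ℝ) - d ≤ x * M ∧ x * M ≤ X + d ∧ (Y : ℝ) - d ≤ y * M ∧ y * M ≤ Y + d := by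
  simp only [near, Bool.and_eq_true, Nat.ble_eq] at hn
  obtain ⟨⟨⟨e1, e2⟩, e3⟩, e4⟩ := hn
  have e1' : (X : ℝ) ≤ a + d := by exact_mod_cast e1
  have e2' : ((a + h : ℕ) : ℝ) ≤ X + d := by exact_mod_cast e2
  have e3' : (Y : ℝ) ≤ b + d := by exact_mod_cast e3
  have e4' : ((b + h : ℕ) : ℝ) ≤ Y + d := by exact_mod_cast e4
  refine ⟨by linarith, by linarith, by linarith, by linarith⟩

/-- In a box around a centre `(x₀, y₀)` the lattice points on the circle that get enclosed are to be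
added to the core of the box. -/
lemma near_count {M S a a' b b' : ℕ} (hM : 0 < M) (ha : a ≤ M) (hb : b ≤ M) {x₀ y₀ x y : ℝ}
    (g1 : a ≤ x₀ * M) (g2 : x₀ * M ≤ a') (g3 : b ≤ y₀ * M) (g4 : y₀ * M ≤ b')
    (gx : 0 ≤ x₀) (gy : 0 ≤ y₀) (gx1 : x₀ ≤ 1) (gy1 : y₀ ≤ 1)
    (h1 : a ≤ x * M) (h2 : x * M ≤ a') (h3 : b ≤ y * M) (h4 : y * M ≤ b')
    (hx : 0 ≤ x) (hy : 0 ≤ y) (hx1 : x ≤ 1) (hy1 : y ≤ 1) (J : ℕ) (T : Finset (ℤ × ℤ))
    (hT : ∀ p ∈ T, (S / M ^ 2 : ℝ) ≤ sd x₀ y₀ p) (hT' : ∀ p ∈ T, sd x y p < S / M ^ 2) :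
    boxCount M S J a a' b b' + T.card ≤ cnt x y (S / M ^ 2) := by
  have hc := core_ncard (S := S) (a := a) (a' := a') (b := b) (b' := b') hM J
  have s1 := core_subset (S := S) hM ha hb g1 g2 g3 g4 gx gy gx1 gy1
  have s2 := core_subset (S := S) hM ha hb h1 h2 h3 h4 hx hy hx1 hy1
  have hdis : Disjoint (core M S a a' b b') (T : Set (ℤ × ℤ)) := by
    rw [Set.disjoint_left]
    intro p hp hpT
    have e1 : sd x₀ y₀ p < S / M ^ 2 := s1 hp
    exact absurd e1 (not_lt.2 (hT p hpT))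
  have hfin : (core M S a a' b b').Finite := (enc_finite _ _ _).subset s2
  have h5 : (core M S a a' b b' ∪ (T : Set (ℤ × ℤ))).ncard ≤ cnt x y (S / M ^ 2) :=
    Set.ncard_le_ncard (Set.union_subset s2 (fun p hp => hT' p hp)) (enc_finite _ _ _)
  rw [Set.ncard_union_eq hdis hfin T.finite_toSet, Set.ncard_coe_finset] at h5
  omega

end Pool.Agent.X161.MC
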