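import Pool.Agent.X161.MC.Cert

/-!
# Circles close to a critical circle, and the definitions
-/

set_option autoImplicit false

namespace Pool.Agent.X161.MC

/-! ### Exact counts -/

/-- The number of the elements of `nquad M A B S` with entries less than `J`. -/
def qcount (M A B S J : ℕ) : ℕ :=
  ((Finset.range J ×ˢ Finset.range J).filter
    (fun q => (q.1 * M + A) * (q.1 * M + A) + (q.2 * M + B) * (q.2 * M + B) < S)).card

lemma nquad_ncard {M A B S J : ℕ} (hJ : S ≤ (J * M) * (J * M)) :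
    (nquad M A B S).ncard = qcount M A B S J := by
  unfold qcount
  rw [← Set.ncard_coe_finset]
  congr 1
  ext ⟨a, b⟩
  simp only [nquad, Set.mem_ofPred_eq, Finset.coe_filter, Finset.mem_product, Finset.mem_range]
  constructor
  · intro h
    have h' : (a * M + A) * (a * M + A) + (b * M + B) * (b * M + B) < S := by
      rw [pow_two, pow_two] at h
      exact h
    refine ⟨⟨?_, ?_⟩, h'⟩
    · by_contra hc
      push Not at hc
      have h1 : J * M ≤ a * M + A := (Nat.mul_le_mul_right M hc).trans (Nat.le_add_right _ _)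
      have h2 := Nat.mul_le_mul h1 h1
      omega
    · by_contra hc
      push Not at hc
      have h1 : J * M ≤ b * M + B := (Nat.mul_le_mul_right M hc).trans (Nat.le_add_right _ _)
      have h2 := Nat.mul_le_mul h1 h1
      omega
  · rintro ⟨_, h⟩
    rw [pow_two, pow_two]
    exact h

lemma quad_eq {M A B S : ℕ} (hM : 0 < M) {α β : ℝ} (hA : α * M = A) (hB : β * M = B) :
    quad α β (S / M ^ 2) = nquad M A B S := by
  ext ⟨a, b⟩
  have hM' : (0 : ℝ) < M := by exact_mod_cast hM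
  simp only [quad, nquad, Set.mem_ofPred_eq]
  rw [lt_div_iff₀ (by positivity)]
  have e : (((a : ℝ) + α) ^ 2 + ((b : ℝ) + β) ^ 2) * (M : ℝ) ^ 2 =
      (a * M + A) ^ 2 + (b * M + B) ^ 2 := by rw [← hA, ← hB]; ring
  rw [e]
  exact_mod_cast Iff.rfl

/-- The exact count for a rational centre `(X / M, Y / M)` in the unit square. -/
lemma cnt_exact {M X Y S : ℕ} (J : ℕ) (hM : 0 < M) (hX : X ≤ M) (hY : Y ≤ M) (hJ : S ≤ (J * M) * (J * M)) :
    cnt ((X : ℝ) / M) ((Y : ℝ) / M) (S / M ^ 2) =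
      (qcount M (M - X) (M - Y) S J + qcount M X (M - Y) S J) +
      (qcount M (M - X) Y S J + qcount M X Y S J) := by
  have hM' : (M : ℝ) ≠ 0 := by exact_mod_cast hM.ne'
  have cX : ((M - X : ℕ) : ℝ) = M - X := Nat.cast_sub hX
  have cY : ((M - Y : ℕ) : ℝ) = M - Y := Nat.cast_sub hY
  rw [cnt_eq, quad_eq (A := M - X) (B := M - Y) hM (by simp [off]; field_simp; linarith) (by simp [off]; field_simp; linarith),
    quad_eq (A := X) (B := M - Y) hM (by simp [off]; field_simp) (by simp [off]; field_simp; linarith),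
    quad_eq (A := M - X) (B := Y) hM (by simp [off]; field_simp; linarith) (by simp [off]; field_simp),
    quad_eq (A := X) (B := Y) hM (by simp [off]; field_simp) (by simp [off]; field_simp),
    nquad_ncard hJ, nquad_ncard hJ, nquad_ncard hJ, nquad_ncard hJ]

/-- A slightly larger radius encloses the lattice points of the circle. -/
lemma cnt_gt {x y s s' : ℝ} (h : s < s') (T : Finset (ℤ × ℤ)) (hT : ∀ p ∈ T, sd x y p = s) :
    cnt x y s + T.card ≤ cnt x y s' := by
  have hdis : Disjoint (enc x y s) (T : Set (ℤ × ℤ)) := by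
    rw [Set.disjoint_left]
    intro p hp hpT
    have e1 : sd x y p < s := hp
    exact absurd (hT p hpT) e1.ne
  have h5 : (enc x y s ∪ (T : Set (ℤ × ℤ))).ncard ≤ cnt x y s' := by
    refine Set.ncard_le_ncard (Set.union_subset (fun p hp => ?_) (fun p hp => ?_)) (enc_finite _ _ _)
    · exact lt_trans (show sd x y p < s from hp) h
    · change sd x y p < s'
      rw [hT p hp]
      exact h
  rwa [Set.ncard_union_eq hdis (enc_finite _ _ _) T.finite_toSet, Set.ncard_coe_finset] at h5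

lemma abs_inner_le (u v V W : ℤ) : |u * V + v * W| ≤ (|V| + |W|) * (u ^ 2 + v ^ 2) := by
  have hu : |u| ≤ u ^ 2 := by
    rcases abs_cases u with ⟨h, _⟩ | ⟨h, _⟩ <;> rw [h] <;> nlinarith
  have hv : |v| ≤ v ^ 2 := by
    rcases abs_cases v with ⟨h, _⟩ | ⟨h, _⟩ <;> rw [h] <;> nlinarith
  have h1 : |u * V| ≤ u ^ 2 * |V| := by
    rw [abs_mul]
    exact mul_le_mul_of_nonneg_right hu (abs_nonneg V)
  have h2 : |v * W| ≤ v ^ 2 * |W| := by
    rw [abs_mul]
    exact mul_le_mul_of_nonneg_right hv (abs_nonneg W)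
  have h3 := abs_add_le (u * V) (v * W)
  have h4 := mul_nonneg (abs_nonneg V) (sq_nonneg v)
  have h5 := mul_nonneg (abs_nonneg W) (sq_nonneg u)
  nlinarith

/-- If `(X / q, Y / q)` is the centre of a circle with squared radius `N / q²`, which encloses `m`
lattice points, and `k` lattice points on the circle are beyond a line perpendicular to `(V, W)`, then
there are circles with squared radius nearly `N / q²` or larger that enclose `m + k` points. -/
lemma exist_near {q N : ℕ} {X Y V W A : ℤ} {m k : ℕ} (hq : 0 < q)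
    (hB : cnt ((X : ℝ) / q) ((Y : ℝ) / q) ((N : ℝ) / q ^ 2) = m)
    (hC : {p : ℤ × ℤ | (q * p.1 - X) ^ 2 + (q * p.2 - Y) ^ 2 = N ∧
      A < (q * p.1 - X) * V + (q * p.2 - Y) * W}.ncard = k) {t : ℝ} (ht : t < N / q ^ 2) :
    ∃ x y s : ℝ, t < s ∧ cnt x y s = m + k := by
  have hq' : (0 : ℝ) < q := by exact_mod_cast hq
  set L : ℝ := |(V : ℝ)| + |(W : ℝ)| + |(A : ℝ)| + 1 with hL
  have hV := abs_nonneg (V : ℝ)
  have hW := abs_nonneg (W : ℝ)
  have hA := abs_nonneg (A : ℝ)
  have hL1 : 1 ≤ L := by linarith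
  have hN : (0 : ℝ) ≤ N := Nat.cast_nonneg N
  have ht' : 0 < (N : ℝ) - q ^ 2 * t := by
    rw [lt_div_iff₀ (by positivity)] at ht
    linarith
  obtain ⟨τ, hτ0, hτ1, hτ2⟩ : ∃ τ : ℝ, 0 < τ ∧ 2 * τ * L * (N + 1) ≤ 1 ∧
      2 * τ * |(A : ℝ)| < N - q ^ 2 * t := by
    refine ⟨min (1 / (2 * L * (N + 1))) (((N : ℝ) - q ^ 2 * t) / (2 * L)), ?_, ?_, ?_⟩
    · apply lt_min
      · positivity
      · positivity
    · have h := min_le_left (1 / (2 * L * ((N : ℝ) + 1))) (((N : ℝ) - q ^ 2 * t) / (2 * L))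
      rw [le_div_iff₀ (by positivity)] at h
      linarith
    · have h := min_le_right (1 / (2 * L * ((N : ℝ) + 1))) (((N : ℝ) - q ^ 2 * t) / (2 * L))
      have hpos : 0 < min (1 / (2 * L * ((N : ℝ) + 1))) (((N : ℝ) - q ^ 2 * t) / (2 * L)) := by
        apply lt_min
        · positivity
        · positivity
      set τ := min (1 / (2 * L * ((N : ℝ) + 1))) (((N : ℝ) - q ^ 2 * t) / (2 * L))
      rw [le_div_iff₀ (by positivity)] at h
      have : |(A : ℝ)| < L := by linarith
      nlinarith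
  refine ⟨(X + τ * V) / q, (Y + τ * W) / q, (N - 2 * τ * A + τ ^ 2 * (V ^ 2 + W ^ 2)) / q ^ 2,
    ?_, ?_⟩
  · rw [lt_div_iff₀ (by positivity)]
    have h1 := le_abs_self (A : ℝ)
    have h2 : 0 ≤ τ ^ 2 * ((V : ℝ) ^ 2 + (W : ℝ) ^ 2) := by positivity
    nlinarith
  set C : Set (ℤ × ℤ) := {p : ℤ × ℤ | (q * p.1 - X) ^ 2 + (q * p.2 - Y) ^ 2 = N ∧
      A < (q * p.1 - X) * V + (q * p.2 - Y) * W} with hCdef
  have key : ∀ p : ℤ × ℤ, p ∈ enc ((X + τ * V) / q) ((Y + τ * W) / q)
      ((N - 2 * τ * A + τ ^ 2 * (V ^ 2 + W ^ 2)) / q ^ 2) ↔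
      (((q * p.1 - X) ^ 2 + (q * p.2 - Y) ^ 2 : ℤ) : ℝ) - N <
        2 * τ * ((((q * p.1 - X) * V + (q * p.2 - Y) * W : ℤ) : ℝ) - A) := by
    intro p
    simp only [enc, sd, Set.mem_ofPred_eq]
    rw [lt_div_iff₀ (by positivity)]
    have e : (((p.1 : ℝ) - (X + τ * V) / q) ^ 2 + ((p.2 : ℝ) - (Y + τ * W) / q) ^ 2) * q ^ 2 =
        (q * p.1 - X - τ * V) ^ 2 + (q * p.2 - Y - τ * W) ^ 2 := by
      field_simp
      ring
    rw [e]
    push_cast
    constructor <;> intro h <;> nlinarith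
  have key0 : ∀ p : ℤ × ℤ, p ∈ enc ((X : ℝ) / q) ((Y : ℝ) / q) ((N : ℝ) / q ^ 2) ↔
      ((q * p.1 - X) ^ 2 + (q * p.2 - Y) ^ 2 : ℤ) < N := by
    intro p
    simp only [enc, sd, Set.mem_ofPred_eq]
    rw [lt_div_iff₀ (by positivity)]
    have e : (((p.1 : ℝ) - X / q) ^ 2 + ((p.2 : ℝ) - Y / q) ^ 2) * q ^ 2 =
        (q * p.1 - X) ^ 2 + (q * p.2 - Y) ^ 2 := by
      field_simp
    rw [e]
    exact_mod_cast Iff.rfl
  have hset : enc ((X + τ * V) / q) ((Y + τ * W) / q)
      ((N - 2 * τ * A + τ ^ 2 * (V ^ 2 + W ^ 2)) / q ^ 2) =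
      enc ((X : ℝ) / q) ((Y : ℝ) / q) ((N : ℝ) / q ^ 2) ∪ C := by
    ext p
    rw [key, Set.mem_union, key0]
    set u := (q : ℤ) * p.1 - X
    set v := (q : ℤ) * p.2 - Y
    change _ ↔ _ ∨ (u ^ 2 + v ^ 2 = N ∧ A < u * V + v * W)
    have hI := abs_inner_le u v V W
    set D := u ^ 2 + v ^ 2 with hD
    set I := u * V + v * W
    have hD0 : 0 ≤ D := by positivity
    have hI' : |(I : ℝ)| ≤ (|(V : ℝ)| + |(W : ℝ)|) * (D : ℝ) := by exact_mod_cast hI
    have hD0' : (0 : ℝ) ≤ D := by exact_mod_cast hD0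
    obtain ⟨hI1, hI2⟩ := abs_le.1 hI'
    obtain ⟨hA1, hA2⟩ := abs_le.1 (le_refl |(A : ℝ)|)
    rcases lt_trichotomy D (N : ℤ) with h | h | h
    · constructor
      · intro _
        exact Or.inl h
      · intro _
        have h' : (D : ℝ) + 1 ≤ N := by exact_mod_cast h
        have b1 : (|(V : ℝ)| + |(W : ℝ)|) * (D : ℝ) ≤ (|(V : ℝ)| + |(W : ℝ)|) * (N + 1) :=
          mul_le_mul_of_nonneg_left (by linarith) (by positivity)
        have b2 : |(A : ℝ)| ≤ |(A : ℝ)| * (N + 1) := by nlinarith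
        have b3 : -(L * (N + 1)) < (I : ℝ) - A := by
          have : L * (N + 1) = (|(V : ℝ)| + |(W : ℝ)|) * (N + 1) + |(A : ℝ)| * (N + 1) + (N + 1) := by
            rw [hL]; ring
          linarith
        nlinarith
    · constructor
      · intro h1
        right
        refine ⟨h, ?_⟩
        have h' : (D : ℝ) = N := by exact_mod_cast h
        rw [h', sub_self] at h1
        have : 0 < (I : ℝ) - A := by
          by_contra hc
          push Not at hc
          nlinarith
        have h2 : (A : ℝ) < I := by linarith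
        exact_mod_cast h2
      · rintro (h1 | ⟨_, h1⟩)
        · omega
        · have h' : (D : ℝ) = N := by exact_mod_cast h
          rw [h', sub_self]
          have h2 : (A : ℝ) < I := by exact_mod_cast h1
          have : 0 < (I : ℝ) - A := by linarith
          positivity
    · constructor
      · intro h1
        exfalso
        have h' : (N : ℝ) + 1 ≤ D := by exact_mod_cast h
        have b1 : (I : ℝ) - A ≤ L * D := by
          have : L * D = (|(V : ℝ)| + |(W : ℝ)|) * D + |(A : ℝ)| * D + D := by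
            rw [hL]; ring
          have : |(A : ℝ)| ≤ |(A : ℝ)| * D := by nlinarith
          linarith
        have b2 : 2 * τ * ((I : ℝ) - A) ≤ 2 * τ * (L * D) :=
          mul_le_mul_of_nonneg_left b1 (by positivity)
        have b3 : (D : ℝ) * (2 * τ * L * (N + 1)) ≤ D := by nlinarith
        have b4 : (D : ℝ) ≤ (D - N) * (N + 1) := by nlinarith
        nlinarith
      · rintro (h1 | ⟨h1, _⟩) <;> omega
  have hdis : Disjoint (enc ((X : ℝ) / q) ((Y : ℝ) / q) ((N : ℝ) / q ^ 2)) C := by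
    rw [Set.disjoint_left]
    intro p hp hpC
    rw [key0] at hp
    have := hpC.1
    omega
  have hfin : C.Finite := (enc_finite _ _ _).subset (hset ▸ Set.subset_union_right)
  unfold cnt at hB ⊢
  rw [hset, Set.ncard_union_eq hdis (enc_finite _ _ _) hfin, hB, hC]

end Pool.Agent.X161.MC
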